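import Mathlib

set_option autoImplicit false

open Finset

namespace Pool.Agent.Results.MP_0a2cd2_co.UnboundedGap

/-! ### Hall's condition for nearly disjoint lists -/

/-- Lists of size `k` which pairwise share at most one colour have a system of distinct
representatives avoiding a set `F` of at most `b` colours. -/
lemma exists_sdr {P C : Type} [Fintype P] [DecidableEq P] [DecidableEq C] (L : P → Finset C)
    (F : Finset C) (k b : ℕ) (hL : ∀ w, k ≤ (L w).card)
    (hsep : ∀ u v, u ≠ v → (L u ∩ L v).card ≤ 1) (hF : F.card ≤ b)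
    (hnum : ∀ x : ℕ, 1 ≤ x → x ≤ Fintype.card P → (x - 1 + b) * (x - 1 + k) < k * k * x) :
    ∃ f : P → C, Function.Injective f ∧ ∀ w, f w ∈ L w ∧ f w ∉ F := by
  -- lists of size exactly `k`
  have h0 : ∀ w, ∃ M ⊆ L w, M.card = k := fun w => exists_subset_card_eq (hL w)
  choose M hM hMk using h0
  have hMsep : ∀ u v, u ≠ v → (M u ∩ M v).card ≤ 1 := fun u v huv =>
    le_trans (card_le_card (inter_subset_inter (hM u) (hM v))) (hsep u v huv)
  have hall : ∀ X : Finset P, X.card ≤ (X.biUnion fun w => M w \ F).card := by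
    intro X
    by_contra hcon
    push Not at hcon
    set x := X.card with hx
    have hx1 : 1 ≤ x := by omega
    set Q := (X.biUnion fun w => M w \ F) ∪ F with hQ
    have hQc : Q.card ≤ x - 1 + b := by
      refine le_trans (card_union_le _ _) ?_
      omega
    have hMQ : ∀ w ∈ X, M w ⊆ Q := by
      intro w hw c hc
      rw [hQ, mem_union]
      by_cases hcF : c ∈ F
      · exact Or.inr hcF
      · exact Or.inl (mem_biUnion.mpr ⟨w, hw, mem_sdiff.mpr ⟨hc, hcF⟩⟩)
    -- double counting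
    have e1 : ∑ c ∈ Q, (∑ w ∈ X, if c ∈ M w then 1 else 0) = x * k := by
      rw [sum_comm]
      have : ∀ w ∈ X, (∑ c ∈ Q, if c ∈ M w then 1 else 0) = k := by
        intro w hw
        rw [← hMk w, card_eq_sum_ones, ← Finset.sum_filter]
        congr 1
        ext c
        rw [mem_filter]
        exact ⟨fun h => h.2, fun h => ⟨hMQ w hw h, h⟩⟩
      rw [Finset.sum_congr rfl this, sum_const, smul_eq_mul]
    have e2 : ∑ c ∈ Q, (∑ w ∈ X, if c ∈ M w then 1 else 0) ^ 2 ≤ x * (x - 1 + k) := by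
      have h1 : ∀ c ∈ Q, (∑ w ∈ X, if c ∈ M w then 1 else 0) ^ 2 =
          ∑ u ∈ X, ∑ v ∈ X, if c ∈ M u ∩ M v then 1 else 0 := by
        intro c _
        rw [pow_two, Finset.sum_mul_sum]
        refine Finset.sum_congr rfl fun u _ => Finset.sum_congr rfl fun v _ => ?_
        by_cases h1 : c ∈ M u <;> by_cases h2 : c ∈ M v <;> simp [h1, h2]
      rw [Finset.sum_congr rfl h1, sum_comm]
      have h2 : ∀ u ∈ X, ∑ c ∈ Q, ∑ v ∈ X, (if c ∈ M u ∩ M v then 1 else 0) ≤ x - 1 + k := by
        intro u hu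
        rw [sum_comm, ← Finset.add_sum_erase X _ hu]
        have h3 : ∑ c ∈ Q, (if c ∈ M u ∩ M u then 1 else 0) = k := by
          rw [inter_self, ← hMk u, card_eq_sum_ones, ← Finset.sum_filter]
          congr 1
          ext c
          rw [mem_filter]
          exact ⟨fun h => h.2, fun h => ⟨hMQ u hu h, h⟩⟩
        have h4 : ∀ v ∈ X.erase u, ∑ c ∈ Q, (if c ∈ M u ∩ M v then 1 else 0) ≤ 1 := by
          intro v hv
          rw [← card_filter]
          refine le_trans (card_le_card ?_) (hMsep u v (ne_of_mem_erase hv).symm)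
          intro c hc
          exact (mem_filter.mp hc).2
        have h5 := Finset.sum_le_card_nsmul _ _ 1 h4
        rw [card_erase_of_mem hu, smul_eq_mul, mul_one] at h5
        omega
      have h6 := Finset.sum_le_card_nsmul _ _ _ h2
      rwa [smul_eq_mul] at h6
    have e3 := sq_sum_le_card_mul_sum_sq (s := Q)
      (f := fun c => ∑ w ∈ X, if c ∈ M w then 1 else 0)
    rw [e1] at e3
    have e4 : (x * k) ^ 2 ≤ (x - 1 + b) * (x * (x - 1 + k)) :=
      le_trans e3 (Nat.mul_le_mul hQc e2)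
    have e5 := hnum x hx1 (by rw [hx]; exact card_le_univ X)
    have e6 : x * ((x - 1 + b) * (x - 1 + k)) < x * (k * k * x) :=
      Nat.mul_lt_mul_of_pos_left e5 hx1
    have e7 : (x * k) ^ 2 = x * (k * k * x) := by ring
    have e8 : (x - 1 + b) * (x * (x - 1 + k)) = x * ((x - 1 + b) * (x - 1 + k)) := by ring
    omega
  obtain ⟨f, hf1, hf2⟩ := (Finset.all_card_le_biUnion_card_iff_exists_injective _).mp hall
  exact ⟨f, hf1, fun w => ⟨hM w (mem_sdiff.mp (hf2 w)).1, (mem_sdiff.mp (hf2 w)).2⟩⟩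

/-! ### Hypergraphs and their choice numbers -/

section Defs

variable {V : Type}

/-- The hypergraph with the set of edges `E` has, for all lists of at least `k` colours such that
any two distinct vertices of a common edge have at most one common colour, a proper colouring from
the lists. -/
def SepChoosable (E : Set (Finset V)) (k : ℕ) : Prop :=
  ∀ (C : Type) [DecidableEq C] (L : V → Finset C), (∀ v, k ≤ (L v).card) →
    (∀ e ∈ E, ∀ u ∈ e, ∀ v ∈ e, u ≠ v → (L u ∩ L v).card ≤ 1) →
    ∃ φ : V → C, (∀ v, φ v ∈ L v) ∧ ∀ e ∈ E, ¬ ∃ c, ∀ v ∈ e, φ v = c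

/-- The hypergraph with the set of edges `E` has, for all lists of at least `k` colours and all
colourings `f` of the edges, a colouring from the lists which is adapted to `f`. -/
def AdChoosable (E : Set (Finset V)) (k : ℕ) : Prop :=
  ∀ (C : Type) [DecidableEq C] (L : V → Finset C), (∀ v, k ≤ (L v).card) →
    ∀ f : Finset V → C,
    ∃ φ : V → C, (∀ v, φ v ∈ L v) ∧ ∀ e ∈ E, ¬ ∀ v ∈ e, φ v = f e

/-- `k` is the separation choice number. -/
def IsSepChoiceNumber (E : Set (Finset V)) (k : ℕ) : Prop := IsLeast {j | SepChoosable E j} k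

/-- `k` is the adaptable choice number. -/
def IsAdChoiceNumber (E : Set (Finset V)) (k : ℕ) : Prop := IsLeast {j | AdChoosable E j} k

end Defs

/-- Long lists. -/
lemma ad_of_large {V : Type} [Fintype V] (E : Set (Finset V)) (hE : ∀ e ∈ E, 2 ≤ e.card) :
    AdChoosable E (Fintype.card V) := by
  classical
  intro C _ L hL f
  have hall : ∀ X : Finset V, X.card ≤ (X.biUnion L).card := by
    intro X
    rcases X.eq_empty_or_nonempty with rfl | ⟨v, hv⟩
    · simp
    · calc X.card ≤ Fintype.card V := card_le_univ X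
        _ ≤ (L v).card := hL v
        _ ≤ _ := card_le_card (subset_biUnion_of_mem L hv)
  obtain ⟨φ, hφ1, hφ2⟩ := (Finset.all_card_le_biUnion_card_iff_exists_injective _).mp hall
  refine ⟨φ, hφ2, fun e he h => ?_⟩
  obtain ⟨u, hu, v, hv, huv⟩ := one_lt_card.mp (hE e he)
  exact huv (hφ1 ((h u hu).trans (h v hv).symm))

lemma gap_of {V : Type} [Fintype V] (E : Set (Finset V)) (hE : ∀ e ∈ E, 2 ≤ e.card) (s0 a0 k : ℕ)
    (hs : SepChoosable E s0) (ha : ¬ AdChoosable E a0) (hk : s0 + k ≤ a0 + 1) :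
    ∃ a s, IsAdChoiceNumber E a ∧ IsSepChoiceNumber E s ∧ s + k ≤ a := by
  classical
  have h1 : ∃ j, AdChoosable E j := ⟨_, ad_of_large E hE⟩
  have h2 : ∃ j, SepChoosable E j := ⟨s0, hs⟩
  refine ⟨Nat.find h1, Nat.find h2, ⟨Nat.find_spec h1, fun j hj => Nat.find_min' h1 hj⟩,
    ⟨Nat.find_spec h2, fun j hj => Nat.find_min' h2 hj⟩, ?_⟩
  have h3 : Nat.find h2 ≤ s0 := Nat.find_min' h2 hs
  have h4 : a0 < Nat.find h1 := by
    by_contra hcon
    push Not at hcon
    apply ha
    intro C _ L hL f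
    exact Nat.find_spec h1 C L (fun v => le_trans hcon (hL v)) f
  omega

/-! ### Uniformity at least three -/

section Three

/-- The vertices: `b` groups of `m` vertices, and one vertex for every choice of sets `(φ j).1` and
colours `(φ j).2`. -/
abbrev V3 (b m : ℕ) : Type := (Fin b × Fin m) ⊕ (Fin b → Finset (Fin m) × Fin b)

/-- The edge which consists of the vertex `φ` and the set `(φ j).1` in the group `j`. -/
def mixed {b m : ℕ} (φ : Fin b → Finset (Fin m) × Fin b) (j : Fin b) : Finset (V3 b m) :=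
  insert (Sum.inr φ) ((φ j).1.image fun t => Sum.inl (j, t))

/-- The edges. -/
def E3 (r b m : ℕ) : Set (Finset (V3 b m)) :=
  {e | ∃ (j : Fin b) (T : Finset (Fin m)), T.card = r ∧ e = T.image fun t => Sum.inl (j, t)} ∪
  {e | ∃ (φ : Fin b → Finset (Fin m) × Fin b) (j : Fin b), (φ j).1.card = r - 1 ∧ e = mixed φ j}

lemma inl_inj {b m : ℕ} (j : Fin b) :
    Function.Injective (fun t : Fin m => (Sum.inl (j, t) : V3 b m)) := by
  intro t t' h
  exact (Prod.ext_iff.mp (Sum.inl_injective h)).2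

lemma E3_card {r b m : ℕ} (hr : 3 ≤ r) : ∀ e ∈ E3 r b m, e.card = r := by
  rintro e (⟨j, T, hT, rfl⟩ | ⟨φ, j, hT, rfl⟩)
  · rw [card_image_of_injective _ (inl_inj j), hT]
  · unfold mixed
    rw [card_insert_of_notMem, card_image_of_injective _ (inl_inj j), hT]
    · omega
    · intro h
      obtain ⟨t, -, ht⟩ := mem_image.mp h
      cases ht

lemma E3_sep {r b m k : ℕ} (hr : 3 ≤ r) (hm : r ≤ m) (hk : 1 ≤ k) (hkm : m - 1 + k ≤ k * k) :
    SepChoosable (E3 r b m) k := by
  intro C _ L hL hsep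
  have h1 : ∀ j : Fin b, ∃ f : Fin m → C, Function.Injective f ∧
      ∀ t, f t ∈ L (Sum.inl (j, t)) ∧ f t ∉ (∅ : Finset C) := by
    intro j
    refine exists_sdr (fun t => L (Sum.inl (j, t))) ∅ k 0 (fun t => hL _) ?_ (by simp) ?_
    · intro u v huv
      -- two vertices of a group are in a common edge
      obtain ⟨T, hT1, hT2⟩ := exists_superset_card_eq (s := ({u, v} : Finset (Fin m))) (n := r)
        (by rw [card_pair huv]; omega) (by rw [Fintype.card_fin]; exact hm)
      refine hsep (T.image fun t => Sum.inl (j, t)) (Or.inl ⟨j, T, hT2, rfl⟩) _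
        (mem_image_of_mem _ (hT1 (by simp))) _ (mem_image_of_mem _ (hT1 (by simp))) ?_
      exact fun h => huv (inl_inj j h)
    · intro x hx1 hx2
      rw [Fintype.card_fin] at hx2
      rw [add_zero]
      calc (x - 1) * (x - 1 + k) ≤ (x - 1) * (k * k) := Nat.mul_le_mul_left _ (by omega)
        _ < x * (k * k) := Nat.mul_lt_mul_of_pos_right (by omega) (Nat.mul_pos hk hk)
        _ = k * k * x := mul_comm _ _
  choose f hf1 hf2 using h1
  have h2 : ∀ φ : Fin b → Finset (Fin m) × Fin b, ∃ c, c ∈ L (Sum.inr φ) := fun φ =>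
    card_pos.mp (by have := hL (Sum.inr φ); omega)
  choose g hg using h2
  refine ⟨fun v => match v with
    | Sum.inl (j, t) => f j t
    | Sum.inr φ => g φ, ?_, ?_⟩
  · rintro (⟨j, t⟩ | φ)
    · exact (hf2 j t).1
    · exact hg φ
  · rintro e he ⟨c, hc⟩
    have key : ∀ (j : Fin b) (T : Finset (Fin m)), 2 ≤ T.card →
        (∀ t ∈ T, (Sum.inl (j, t) : V3 b m) ∈ e) → False := by
      intro j T hT h
      obtain ⟨u, hu, v, hv, huv⟩ := one_lt_card.mp hT
      have e1 : f j u = c := hc _ (h u hu)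
      have e2 : f j v = c := hc _ (h v hv)
      exact huv (hf1 j (e1.trans e2.symm))
    rcases he with ⟨j, T, hT, rfl⟩ | ⟨φ, j, hT, rfl⟩
    · exact key j T (by omega) fun t ht => mem_image_of_mem _ ht
    · exact key j (φ j).1 (by omega) fun t ht => mem_insert_of_mem (mem_image_of_mem _ ht)

lemma E3_ad {r b m : ℕ} (hr : 3 ≤ r) (hb : 1 ≤ b) (hm : b * (r - 2) < m) :
    ¬ AdChoosable (E3 r b m) b := by
  classical
  intro had
  -- the colouring of the edges
  let I := {x : (Fin b → Finset (Fin m) × Fin b) × Fin b // (x.1 x.2).1.card = r - 1}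
  let g : I → Finset (V3 b m) := fun x => mixed x.1.1 x.1.2
  have hg : Function.Injective g := by
    rintro ⟨⟨φ, j⟩, h⟩ ⟨⟨ψ, i⟩, h'⟩ hgg
    have h1 : mixed φ j = mixed ψ i := hgg
    have h2 : (Sum.inr φ : V3 b m) ∈ mixed ψ i := by
      rw [← h1]; exact mem_insert_self _ _
    have h3 : φ = ψ := by
      rcases mem_insert.mp h2 with h2 | h2
      · exact Sum.inr_injective h2
      · obtain ⟨t, -, ht⟩ := mem_image.mp h2
        cases ht
    subst h3
    have h4 : (φ j).1.Nonempty := card_pos.mp (by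
      have : (φ j).1.card = r - 1 := h
      omega)
    obtain ⟨t, ht⟩ := h4
    have h5 : (Sum.inl (j, t) : V3 b m) ∈ mixed φ i := by
      rw [← h1]; exact mem_insert_of_mem (mem_image_of_mem _ ht)
    have h6 : j = i := by
      rcases mem_insert.mp h5 with h5 | h5
      · cases h5
      · obtain ⟨t', -, ht'⟩ := mem_image.mp h5
        exact (Prod.ext_iff.mp (Sum.inl_injective ht')).1.symm
    subst h6
    rfl
  let j0 : Fin b := ⟨0, hb⟩
  let f : Finset (V3 b m) → Fin b × Fin b :=
    Function.extend g (fun x => (x.1.2, (x.1.1 x.1.2).2)) (fun _ => (j0, j0))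
  have hf : ∀ (φ : Fin b → Finset (Fin m) × Fin b) (j : Fin b), (φ j).1.card = r - 1 →
      f (mixed φ j) = (j, (φ j).2) := fun φ j h =>
    hg.extend_apply _ _ (⟨(φ, j), h⟩ : I)
  let L : V3 b m → Finset (Fin b × Fin b) := fun v => match v with
    | Sum.inl (j, _) => univ.image fun c => (j, c)
    | Sum.inr φ => univ.image fun j => (j, (φ j).2)
  obtain ⟨ψ, hψ1, hψ2⟩ := had (Fin b × Fin b) L (by
    rintro (⟨j, t⟩ | φ)
    · show b ≤ (univ.image fun c : Fin b => (j, c)).card
      rw [card_image_of_injective _ fun c c' h => (Prod.ext_iff.mp h).2, card_univ,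
        Fintype.card_fin]
    · show b ≤ (univ.image fun j : Fin b => (j, (φ j).2)).card
      rw [card_image_of_injective _ fun c c' h => (Prod.ext_iff.mp h).1, card_univ,
        Fintype.card_fin]) f
  have h1 : ∀ (j : Fin b) (t : Fin m), ∃ c : Fin b, ψ (Sum.inl (j, t)) = (j, c) := by
    intro j t
    obtain ⟨c, -, hc⟩ := mem_image.mp (show ψ (Sum.inl (j, t)) ∈ univ.image fun c : Fin b => (j, c)
      from hψ1 (Sum.inl (j, t)))
    exact ⟨c, hc.symm⟩
  choose c hc using h1
  have h2 : ∀ j : Fin b, ∃ (d : Fin b) (T : Finset (Fin m)), T.card = r - 1 ∧ ∀ t ∈ T, c j t = d := by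
    intro j
    have h3 : ∃ d : Fin b, r - 1 ≤ (univ.filter fun t => c j t = d).card := by
      by_contra hcon
      push Not at hcon
      have h4 : (univ : Finset (Fin m)).card = ∑ d : Fin b, (univ.filter fun t => c j t = d).card :=
        Finset.card_eq_sum_card_fiberwise fun _ _ => mem_univ _
      have h5 : ∑ d : Fin b, (univ.filter fun t => c j t = d).card ≤ ∑ _d : Fin b, (r - 2) :=
        Finset.sum_le_sum fun d _ => by have := hcon d; omega
      rw [card_univ, Fintype.card_fin] at h4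
      rw [sum_const, card_univ, Fintype.card_fin, smul_eq_mul] at h5
      omega
    obtain ⟨d, hd⟩ := h3
    obtain ⟨T, hT, hTc⟩ := exists_subset_card_eq hd
    exact ⟨d, T, hTc, fun t ht => (mem_filter.mp (hT ht)).2⟩
  choose d T hTc hT using h2
  let φ : Fin b → Finset (Fin m) × Fin b := fun j => (T j, d j)
  obtain ⟨j, -, hj⟩ := mem_image.mp (show ψ (Sum.inr φ) ∈ univ.image fun j : Fin b => (j, (φ j).2)
      from hψ1 (Sum.inr φ))
  refine hψ2 (mixed φ j) (Or.inr ⟨φ, j, hTc j, rfl⟩) ?_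
  rw [hf φ j (hTc j)]
  intro v hv
  rcases mem_insert.mp hv with rfl | hv
  · exact hj.symm
  · obtain ⟨t, ht, rfl⟩ := mem_image.mp hv
    rw [hc j t, hT j t ht]

end Three

/-! ### Graphs -/

section Two

variable {p : ℕ}

/-- The points of the affine plane. -/
abbrev Pt (p : ℕ) : Type := ZMod p × ZMod p

/-- The label of a pair of points: its slope, if this is one of `0, …, p - 2`. -/
noncomputable def slope [Fact p.Prime] [NeZero (p - 1)] (u v : Pt p) : Fin (p - 1) :=
  if h : ((u.2 - v.2) / (u.1 - v.1)).val < p - 1 then ⟨((u.2 - v.2) / (u.1 - v.1)).val, h⟩ else 0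

lemma slope_comm [Fact p.Prime] [NeZero (p - 1)] (u v : Pt p) : slope u v = slope v u := by
  have h : (u.2 - v.2) / (u.1 - v.1) = (v.2 - u.2) / (v.1 - u.1) := by
    rw [← neg_sub v.2 u.2, ← neg_sub v.1 u.1, neg_div_neg_eq]
  unfold slope
  rw [h]

/-- Every colouring of the points with `p - 1` colours has a pair of points whose colour is the
label of the pair. -/
lemma slope_bad [Fact p.Prime] [NeZero (p - 1)] (c : Pt p → Fin (p - 1)) :
    ∃ u v, u ≠ v ∧ c u = slope u v ∧ c v = slope u v := by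
  have hp : 2 ≤ p := (Fact.out : p.Prime).two_le
  have : NeZero p := ⟨by omega⟩
  have h1 : ∃ i : Fin (p - 1), p < (univ.filter fun u => c u = i).card := by
    by_contra hcon
    push Not at hcon
    have h2 : (univ : Finset (Pt p)).card = ∑ i, (univ.filter fun u => c u = i).card :=
      Finset.card_eq_sum_card_fiberwise fun _ _ => mem_univ _
    have h3 : ∑ i, (univ.filter fun u => c u = i).card ≤ ∑ _i : Fin (p - 1), p :=
      Finset.sum_le_sum fun i _ => hcon i
    rw [card_univ, Fintype.card_prod, ZMod.card] at h2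
    rw [sum_const, card_univ, Fintype.card_fin, smul_eq_mul] at h3
    have h4 : (p - 1) * p < p * p := Nat.mul_lt_mul_of_pos_right (by omega) (by omega)
    omega
  obtain ⟨i, hi⟩ := h1
  -- two points on a common line of slope `i`
  obtain ⟨u, hu, v, hv, huv, hline⟩ := exists_ne_map_eq_of_card_lt_of_maps_to
    (s := univ.filter fun u => c u = i) (t := (univ : Finset (ZMod p)))
    (f := fun u : Pt p => u.2 - ((i : ℕ) : ZMod p) * u.1)
    (by rw [card_univ, ZMod.card]; exact hi) (fun _ _ => mem_coe.mpr (mem_univ _))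
  have hne : u.1 - v.1 ≠ 0 := by
    intro h0
    apply huv
    have h1 : u.1 = v.1 := sub_eq_zero.mp h0
    refine Prod.ext h1 ?_
    simp only [h1] at hline
    exact sub_left_injective hline
  have hs : (u.2 - v.2) / (u.1 - v.1) = ((i : ℕ) : ZMod p) := by
    rw [div_eq_iff hne]
    linear_combination hline
  have hsl : slope u v = i := by
    unfold slope
    have hval : (((i : ℕ) : ZMod p)).val = i := ZMod.val_natCast_of_lt (by have := i.2; omega)
    rw [hs]
    simp only [hval]
    rw [dif_pos i.2]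
  exact ⟨u, v, huv, by rw [hsl]; exact (mem_filter.mp hu).2, by rw [hsl]; exact (mem_filter.mp hv).2⟩

/-- The choices: a point and a colour for every group. -/
abbrev Ch (p b : ℕ) : Type := (Fin b → Pt p) × (Fin b → Fin b)

/-- The vertices: `b` groups of `p ^ 2` vertices, and one further group for each choice. -/
abbrev V2 (p b : ℕ) : Type := (Fin b × Pt p) ⊕ (Ch p b × Pt p)

/-- The edges: all pairs inside a group, and the pairs which consist of a vertex of the group of the
choice `φ` and one of the chosen points. -/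
def E2 (p b : ℕ) : Set (Finset (V2 p b)) :=
  {e | ∃ (j : Fin b) (u v : Pt p), u ≠ v ∧ e = {Sum.inl (j, u), Sum.inl (j, v)}} ∪
  ({e | ∃ (φ : Ch p b) (u v : Pt p), u ≠ v ∧ e = {Sum.inr (φ, u), Sum.inr (φ, v)}} ∪
  {e | ∃ (φ : Ch p b) (j : Fin b) (w : Pt p), e = {Sum.inl (j, φ.1 j), Sum.inr (φ, w)}})

lemma E2_card (b : ℕ) : ∀ e ∈ E2 p b, e.card = 2 := by
  rintro e (⟨j, u, v, huv, rfl⟩ | ⟨φ, u, v, huv, rfl⟩ | ⟨φ, j, w, rfl⟩)
  · exact card_pair fun h => huv (Prod.ext_iff.mp (Sum.inl_injective h)).2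
  · exact card_pair fun h => huv (Prod.ext_iff.mp (Sum.inr_injective h)).2
  · exact card_pair fun h => by cases h

lemma E2_sep [Fact p.Prime] : SepChoosable (E2 p (p + 1)) (p + 2) := by
  have hp : 2 ≤ p := (Fact.out : p.Prime).two_le
  have : NeZero p := ⟨by omega⟩
  have hnum : ∀ x : ℕ, 1 ≤ x → x ≤ Fintype.card (Pt p) →
      (x - 1 + (p + 1)) * (x - 1 + (p + 2)) < (p + 2) * (p + 2) * x := by
    intro x hx1 hx2
    rw [Fintype.card_prod, ZMod.card] at hx2
    obtain ⟨y, rfl⟩ : ∃ y, x = y + 1 := ⟨x - 1, by omega⟩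
    obtain ⟨z, hz⟩ : ∃ z, p * p = y + 1 + z := ⟨p * p - (y + 1), by omega⟩
    rw [Nat.add_sub_cancel]
    nlinarith [Nat.zero_le (y * z), Nat.zero_le (y * p)]
  intro C _ L hL hsep
  have h1 : ∀ j : Fin (p + 1), ∃ f : Pt p → C, Function.Injective f ∧
      ∀ u, f u ∈ L (Sum.inl (j, u)) ∧ f u ∉ (∅ : Finset C) := by
    intro j
    refine exists_sdr (fun u => L (Sum.inl (j, u))) ∅ (p + 2) (p + 1) (fun u => hL _) ?_
      (by simp) hnum
    intro u v huv
    exact hsep _ (Or.inl ⟨j, u, v, huv, rfl⟩) _ (by simp) _ (by simp)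
      (fun h => huv (Prod.ext_iff.mp (Sum.inl_injective h)).2)
  choose f hf1 hf2 using h1
  have h2 : ∀ φ : Ch p (p + 1), ∃ g : Pt p → C, Function.Injective g ∧
      ∀ u, g u ∈ L (Sum.inr (φ, u)) ∧ g u ∉ univ.image fun j => f j (φ.1 j) := by
    intro φ
    refine exists_sdr (fun u => L (Sum.inr (φ, u))) _ (p + 2) (p + 1) (fun u => hL _) ?_ ?_ hnum
    · intro u v huv
      exact hsep _ (Or.inr (Or.inl ⟨φ, u, v, huv, rfl⟩)) _ (by simp) _ (by simp)
        (fun h => huv (Prod.ext_iff.mp (Sum.inr_injective h)).2)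
    · refine le_trans card_image_le ?_
      rw [card_univ, Fintype.card_fin]
  choose g hg1 hg2 using h2
  refine ⟨fun v => match v with
    | Sum.inl (j, u) => f j u
    | Sum.inr (φ, u) => g φ u, ?_, ?_⟩
  · rintro (⟨j, u⟩ | ⟨φ, u⟩)
    · exact (hf2 j u).1
    · exact (hg2 φ u).1
  · rintro e (⟨j, u, v, huv, rfl⟩ | ⟨φ, u, v, huv, rfl⟩ | ⟨φ, j, w, rfl⟩) ⟨c, hc⟩
    · have e1 : f j u = c := hc (Sum.inl (j, u)) (by simp)
      have e2 : f j v = c := hc (Sum.inl (j, v)) (by simp)
      exact huv (hf1 j (e1.trans e2.symm))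
    · have e1 : g φ u = c := hc (Sum.inr (φ, u)) (by simp)
      have e2 : g φ v = c := hc (Sum.inr (φ, v)) (by simp)
      exact huv (hg1 φ (e1.trans e2.symm))
    · have e1 : f j (φ.1 j) = c := hc (Sum.inl (j, φ.1 j)) (by simp)
      have e2 : g φ w = c := hc (Sum.inr (φ, w)) (by simp)
      exact (hg2 φ w).2 (mem_image.mpr ⟨j, mem_univ _, e1.trans e2.symm⟩)

/-- A symmetric function of two vertices comes from a function of the pairs. -/
lemma exists_pair_fun {V C : Type} [DecidableEq V] [Nonempty C] (g : V → V → C)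
    (hg : ∀ u v, g u v = g v u) : ∃ f : Finset V → C, ∀ u v, u ≠ v → f {u, v} = g u v := by
  classical
  refine ⟨fun e => if h : ∃ x : V × V, x.1 ≠ x.2 ∧ e = {x.1, x.2} then
    g (Classical.choose h).1 (Classical.choose h).2 else Classical.arbitrary C, ?_⟩
  intro u v huv
  have h : ∃ x : V × V, x.1 ≠ x.2 ∧ ({u, v} : Finset V) = {x.1, x.2} := ⟨(u, v), huv, rfl⟩
  simp only
  rw [dif_pos h]
  obtain ⟨h1, h2⟩ := Classical.choose_spec h
  set x := Classical.choose h
  have hu : u ∈ ({x.1, x.2} : Finset V) := by rw [← h2]; simp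
  have hv : v ∈ ({x.1, x.2} : Finset V) := by rw [← h2]; simp
  rw [mem_insert, mem_singleton] at hu hv
  rcases hu with hu | hu <;> rcases hv with hv | hv
  · exact absurd (hu.trans hv.symm) huv
  · rw [hu, hv]
  · rw [hu, hv]; exact hg _ _
  · exact absurd (hu.trans hv.symm) huv

lemma E2_ad [Fact p.Prime] [NeZero (p - 1)] : ¬ AdChoosable (E2 p (p + 1)) (2 * p) := by
  classical
  have hp : 2 ≤ p := (Fact.out : p.Prime).two_le
  have : NeZero p := ⟨by omega⟩
  intro had
  let C := Fin (p - 1) ⊕ (Fin (p + 1) × Fin (p + 1))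
  let g : V2 p (p + 1) → V2 p (p + 1) → C := fun x y => match x, y with
    | Sum.inl (_, u), Sum.inl (_, v) => Sum.inl (slope u v)
    | Sum.inr (_, u), Sum.inr (_, v) => Sum.inl (slope u v)
    | Sum.inl (j, _), Sum.inr (φ, _) => Sum.inr (j, φ.2 j)
    | Sum.inr (φ, _), Sum.inl (j, _) => Sum.inr (j, φ.2 j)
  have hne : Nonempty C := ⟨Sum.inr (0, 0)⟩
  obtain ⟨f, hf⟩ := exists_pair_fun g (by
    rintro (⟨j, u⟩ | ⟨φ, u⟩) (⟨i, v⟩ | ⟨ψ, v⟩)
    · show Sum.inl (slope u v) = Sum.inl (slope v u)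
      rw [slope_comm]
    · rfl
    · rfl
    · show Sum.inl (slope u v) = Sum.inl (slope v u)
      rw [slope_comm])
  let L : V2 p (p + 1) → Finset C := fun x => match x with
    | Sum.inl (j, _) => (univ.image Sum.inl) ∪ (univ.image fun c => Sum.inr (j, c))
    | Sum.inr (φ, _) => (univ.image Sum.inl) ∪ (univ.image fun j => Sum.inr (j, φ.2 j))
  have hcard : ∀ h : Fin (p + 1) → Fin (p + 1) × Fin (p + 1), Function.Injective h →
      2 * p ≤ (((univ : Finset (Fin (p - 1))).image (Sum.inl : _ → C)) ∪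
        (univ.image fun c => (Sum.inr (h c) : C))).card := by
    intro h hh
    have hinj : Function.Injective (fun c => (Sum.inr (h c) : C)) := Sum.inr_injective.comp hh
    rw [card_union_of_disjoint, card_image_of_injective _ Sum.inl_injective,
      card_image_of_injective _ hinj, card_univ, card_univ,
      Fintype.card_fin, Fintype.card_fin]
    · omega
    · rw [Finset.disjoint_left]
      intro x hx hx'
      obtain ⟨y, -, rfl⟩ := mem_image.mp hx
      obtain ⟨z, -, hz⟩ := mem_image.mp hx'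
      cases hz
  obtain ⟨ψ, hψ1, hψ2⟩ := had C L (by
    rintro (⟨j, u⟩ | ⟨φ, u⟩)
    · exact hcard (fun c => (j, c)) fun c c' h => (Prod.ext_iff.mp h).2
    · exact hcard (fun i => (i, φ.2 i)) fun c c' h => (Prod.ext_iff.mp h).1) f
  -- in each group a colour of the second kind is used
  have h1 : ∀ j : Fin (p + 1), ∃ (u : Pt p) (c : Fin (p + 1)), ψ (Sum.inl (j, u)) = Sum.inr (j, c) := by
    intro j
    by_contra hcon
    push Not at hcon
    have h2 : ∀ u : Pt p, ∃ i : Fin (p - 1), ψ (Sum.inl (j, u)) = Sum.inl i := by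
      intro u
      rcases mem_union.mp (show ψ (Sum.inl (j, u)) ∈ (univ.image Sum.inl) ∪
        (univ.image fun c => Sum.inr (j, c)) from hψ1 (Sum.inl (j, u))) with h | h
      · obtain ⟨i, -, hi⟩ := mem_image.mp h
        exact ⟨i, hi.symm⟩
      · obtain ⟨c, -, hc⟩ := mem_image.mp h
        exact absurd hc.symm (hcon u c)
    choose c hc using h2
    obtain ⟨u, v, huv, h3, h4⟩ := slope_bad c
    refine hψ2 {Sum.inl (j, u), Sum.inl (j, v)} (Or.inl ⟨j, u, v, huv, rfl⟩) ?_
    rw [hf _ _ fun h => huv (Prod.ext_iff.mp (Sum.inl_injective h)).2]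
    intro x hx
    rcases mem_insert.mp hx with rfl | hx
    · rw [hc u, h3]
    · rw [mem_singleton.mp hx, hc v, h4]
  choose a c hac using h1
  let φ : Ch p (p + 1) := (a, c)
  have h2 : ∀ u : Pt p, ∃ i : Fin (p - 1), ψ (Sum.inr (φ, u)) = Sum.inl i := by
    intro u
    rcases mem_union.mp (show ψ (Sum.inr (φ, u)) ∈ (univ.image Sum.inl) ∪
      (univ.image fun j => Sum.inr (j, φ.2 j)) from hψ1 (Sum.inr (φ, u))) with h | h
    · obtain ⟨i, -, hi⟩ := mem_image.mp h
      exact ⟨i, hi.symm⟩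
    · exfalso
      obtain ⟨j, -, hj⟩ := mem_image.mp h
      refine hψ2 {Sum.inl (j, φ.1 j), Sum.inr (φ, u)} (Or.inr (Or.inr ⟨φ, j, u, rfl⟩)) ?_
      rw [hf _ _ fun h => by cases h]
      intro x hx
      rcases mem_insert.mp hx with rfl | hx
      · exact hac j
      · rw [mem_singleton.mp hx]
        exact hj.symm
  choose d hd using h2
  obtain ⟨u, v, huv, h3, h4⟩ := slope_bad d
  refine hψ2 {Sum.inr (φ, u), Sum.inr (φ, v)} (Or.inr (Or.inl ⟨φ, u, v, huv, rfl⟩)) ?_
  rw [hf _ _ fun h => huv (Prod.ext_iff.mp (Sum.inr_injective h)).2]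
  intro x hx
  rcases mem_insert.mp hx with rfl | hx
  · rw [hd u, h3]
  · rw [mem_singleton.mp hx, hd v, h4]

end Two

/-- **Main theorem.**  For all `r ≥ 2` and all `k` there is a finite `r`-uniform hypergraph whose
adaptable choice number exceeds its separation choice number by at least `k`. -/
theorem result (r k : ℕ) (hr : 2 ≤ r) :
    ∃ (V : Type) (_ : Fintype V) (E : Set (Finset V)), (∀ e ∈ E, e.card = r) ∧
      ∃ a s, IsAdChoiceNumber E a ∧ IsSepChoiceNumber E s ∧ s + k ≤ a := by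
  rcases Nat.lt_or_ge 2 r with hr3 | hr2
  · -- `r ≥ 3`
    set s0 := 2 * (r - 1) + k with hs0
    set b := s0 + k with hb
    refine ⟨V3 b (b * (r - 2) + 1), inferInstance, E3 r b (b * (r - 2) + 1), E3_card hr3,
      gap_of _ (fun e he => by rw [E3_card hr3 e he]; exact hr) s0 b k (E3_sep hr3 ?_ (by omega) ?_)
      (E3_ad hr3 (by omega) (Nat.lt_succ_self _)) (by omega)⟩
    · obtain ⟨t, ht⟩ : ∃ t, r = t + 3 := ⟨r - 3, by omega⟩
      subst ht
      have hb2 : 2 ≤ b := by omega
      have e1 : t + 3 - 2 = t + 1 := by omega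
      rw [e1]
      nlinarith
    · obtain ⟨t, ht⟩ : ∃ t, r = t + 3 := ⟨r - 3, by omega⟩
      subst ht
      have e1 : t + 3 - 2 = t + 1 := by omega
      have e2 : t + 3 - 1 = t + 2 := by omega
      rw [e1, Nat.add_sub_cancel, hb, hs0, e2]
      nlinarith
  · -- `r = 2`
    have hr' : r = 2 := le_antisymm hr2 hr
    subst hr'
    obtain ⟨p, hpk, hp⟩ := Nat.exists_infinite_primes (k + 2)
    have : Fact p.Prime := ⟨hp⟩
    have : NeZero (p - 1) := ⟨by have := hp.two_le; omega⟩
    have : NeZero p := ⟨by omega⟩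
    refine ⟨V2 p (p + 1), inferInstance, E2 p (p + 1), E2_card _,
      gap_of _ (fun e he => by rw [E2_card _ e he]) (p + 2) (2 * p) k E2_sep E2_ad (by omega)⟩

end Pool.Agent.Results.MP_0a2cd2_co.UnboundedGap
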